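import Mathlib

namespace Pool.Agent.H.MP_07734d_lc

open Set Filter Topology

theorem add_biUnion {α ι : Type} (μ : Set α → ℝ) (𝒜 : Set (Set α)) (h0 : ∅ ∈ 𝒜)
    (hU : ∀ S ∈ 𝒜, ∀ T ∈ 𝒜, S ∪ T ∈ 𝒜)
    (ha : ∀ S ∈ 𝒜, ∀ T ∈ 𝒜, Disjoint S T → μ (S ∪ T) = μ S + μ T) (f : ι → Set α) (s : Finset ι)
    (hf : ∀ i ∈ s, f i ∈ 𝒜) (hd : (s : Set ι).PairwiseDisjoint f) :
    (⋃ i ∈ s, f i) ∈ 𝒜 ∧ μ (⋃ i ∈ s, f i) = ∑ i ∈ s, μ (f i) := by
  classical
  induction s using Finset.induction_on with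
  | empty =>
    have := ha ∅ h0 ∅ h0 (disjoint_empty _)
    simp only [union_self] at this
    simp only [Finset.notMem_empty, iUnion_of_empty, iUnion_empty, Finset.sum_empty]
    exact ⟨h0, by linarith⟩
  | insert a s has ih =>
    obtain ⟨i1, i2⟩ := ih (fun i hi => hf i (Finset.mem_insert_of_mem hi))
      (hd.subset (by simp))
    have h1 := hf a (Finset.mem_insert_self _ _)
    rw [Finset.set_biUnion_insert, Finset.sum_insert has]
    refine ⟨hU _ h1 _ i1, ?_⟩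
    rw [ha _ h1 _ i1, i2]
    simp only [disjoint_iUnion_right]
    intro i hi
    exact hd (by simp) (by simp [hi]) (fun h => has (h ▸ hi))

theorem var_le {α ι : Type} (μ : Set α → ℝ) (𝒜 : Set (Set α)) (h0 : ∅ ∈ 𝒜)
    (hU : ∀ S ∈ 𝒜, ∀ T ∈ 𝒜, S ∪ T ∈ 𝒜)
    (ha : ∀ S ∈ 𝒜, ∀ T ∈ 𝒜, Disjoint S T → μ (S ∪ T) = μ S + μ T) {C : ℝ}
    (hC : ∀ S ∈ 𝒜, |μ S| ≤ C) (f : ι → Set α) (s : Finset ι)
    (hf : ∀ i ∈ s, f i ∈ 𝒜) (hd : (s : Set ι).PairwiseDisjoint f) :
    ∑ i ∈ s, |μ (f i)| ≤ 2 * C := by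
  classical
  obtain ⟨a1, a2⟩ := add_biUnion μ 𝒜 h0 hU ha f (s.filter fun i => 0 ≤ μ (f i))
    (fun i hi => hf i (Finset.mem_filter.1 hi).1)
    (hd.subset (Finset.coe_subset.2 (Finset.filter_subset _ _)))
  obtain ⟨b1, b2⟩ := add_biUnion μ 𝒜 h0 hU ha f (s.filter fun i => ¬ 0 ≤ μ (f i))
    (fun i hi => hf i (Finset.mem_filter.1 hi).1)
    (hd.subset (Finset.coe_subset.2 (Finset.filter_subset _ _)))
  rw [← Finset.sum_filter_add_sum_filter_not s (fun i => 0 ≤ μ (f i))]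
  have e1 : ∑ i ∈ s.filter (fun i => 0 ≤ μ (f i)), |μ (f i)| =
      ∑ i ∈ s.filter (fun i => 0 ≤ μ (f i)), μ (f i) :=
    Finset.sum_congr rfl fun i hi => abs_of_nonneg (Finset.mem_filter.1 hi).2
  have e2 : ∑ i ∈ s.filter (fun i => ¬ 0 ≤ μ (f i)), |μ (f i)| =
      -∑ i ∈ s.filter (fun i => ¬ 0 ≤ μ (f i)), μ (f i) := by
    rw [← Finset.sum_neg_distrib]
    exact Finset.sum_congr rfl fun i hi => abs_of_neg (not_le.1 (Finset.mem_filter.1 hi).2)
  rw [e1, e2, ← a2, ← b2]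
  linarith [abs_le.1 (hC _ a1), abs_le.1 (hC _ b1)]

theorem thin (m : Set ℕ → ℝ) (ha : ∀ S T, Disjoint S T → m (S ∪ T) = m S + m T) {C : ℝ}
    (hC : ∀ S, |m S| ≤ C) {N : Set ℕ} (hN : N.Infinite) :
    ∃ N' ⊆ N, N'.Infinite ∧ ∀ D ⊆ N', |m D| ≤ 1 := by
  by_contra hn
  push Not at hn
  let e : ℕ × ℕ → ℕ := fun p => hN.natEmbedding N (Nat.pair p.1 p.2)
  have he : Function.Injective e := fun p q h => by
    have := Nat.pair_eq_pair.1 ((hN.natEmbedding N).injective (Subtype.ext h))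
    exact Prod.ext this.1 this.2
  have h1 : ∀ t : ℕ, ∃ D ⊆ range (fun j => e (t, j)), 1 < |m D| := fun t =>
    hn _ (by rintro _ ⟨j, rfl⟩; exact (hN.natEmbedding N _).2)
      (infinite_range_of_injective fun j k h => congrArg Prod.snd (he h))
  choose D hD1 hD2 using h1
  obtain ⟨T, hT⟩ := exists_nat_gt (2 * C)
  have h2 := var_le m univ (mem_univ _) (fun _ _ _ _ => mem_univ _) (fun S _ T _ h => ha S T h)
    (fun S _ => hC S) D (Finset.range T) (fun _ _ => mem_univ _) (by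
      intro s _ t _ hst
      refine disjoint_left.2 fun x h1 h2 => hst ?_
      obtain ⟨j, hj⟩ := hD1 s h1
      obtain ⟨k, hk⟩ := hD1 t h2
      exact congrArg Prod.fst (he (hj.trans hk.symm)))
  have h3 : ∑ _i ∈ Finset.range T, (1 : ℝ) ≤ ∑ i ∈ Finset.range T, |m (D i)| :=
    Finset.sum_le_sum fun i _ => (hD2 i).le
  simp only [Finset.sum_const, Finset.card_range, nsmul_eq_mul, mul_one] at h3
  linarith

theorem nik {α : Type} (μ : ℕ → Set α → ℝ)
    (ha : ∀ k S T, Disjoint S T → μ k (S ∪ T) = μ k S + μ k T)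
    (hb : ∀ k, ∃ C, ∀ S, |μ k S| ≤ C) (hp : ∀ S, ∃ C, ∀ k, |μ k S| ≤ C) :
    ∃ C, ∀ k S, |μ k S| ≤ C := by
  by_contra hn
  choose p hp using hp
  have p0 : ∀ S, 0 ≤ p S := fun S => (abs_nonneg _).trans (hp S 0)
  have hsp : ∀ k (S T : Set α), μ k T = μ k (T ∩ S) + μ k (T \ S) := by
    intro k S T
    rw [← ha k (T ∩ S) (T \ S) disjoint_inf_sdiff, inter_union_diff]
  let Big : Set α → Prop := fun A => ¬ ∃ C, ∀ k, ∀ S ⊆ A, |μ k S| ≤ C
  have step : ∀ (A : {A // Big A}) (b : ℝ), ∃ E ⊆ A.1, ∃ k, b < |μ k E| ∧ Big (A.1 \ E) := by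
    rintro ⟨A, hA⟩ b
    have h1 := not_exists.1 hA (b + p A)
    push Not at h1
    obtain ⟨k, S, hS, h2⟩ := h1
    by_cases h : Big (A \ S)
    · exact ⟨S, hS, k, by linarith [p0 A], h⟩
    · refine ⟨A \ S, diff_subset, k, ?_, ?_⟩
      · have h3 := hsp k S A
        rw [inter_eq_right.2 hS] at h3
        have h4 := abs_sub (μ k A) (μ k (A \ S))
        rw [show μ k A - μ k (A \ S) = μ k S by linarith] at h4
        linarith [hp A k]
      · rw [diff_diff_cancel_left hS]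
        rintro ⟨C, hC⟩
        obtain ⟨C', hC'⟩ := not_not.1 h
        refine hA ⟨C + C', fun k T hT => ?_⟩
        rw [hsp k S T]
        exact (abs_add_le _ _).trans (add_le_add (hC k _ inter_subset_right)
          (hC' k _ (diff_subset_diff_left hT)))
  choose E hE1 kk hE2 hE3 using step
  obtain ⟨st, s0, ss⟩ : ∃ st : ℕ → {A // Big A} × ℝ, (st 0).2 = 0 ∧ ∀ j, st (j + 1) =
      (⟨(st j).1.1 \ E (st j).1 (st j).2, hE3 _ _⟩, (st j).2 + 1 + p (E (st j).1 (st j).2)) :=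
    ⟨fun j => Nat.rec (⟨univ, fun ⟨C, hC⟩ => hn ⟨C, fun k S => hC k S (subset_univ _)⟩⟩, 0)
      (fun _ s => (⟨s.1.1 \ E s.1 s.2, hE3 _ _⟩, s.2 + 1 + p (E s.1 s.2))) j, rfl, fun _ => rfl⟩
  let F : ℕ → Set α := fun j => E (st j).1 (st j).2
  have hanti : Antitone fun j => (st j).1.1 := antitone_nat_of_succ_le fun j => by
    rw [ss]
    exact diff_subset
  have hdis : ∀ i j, i < j → Disjoint (F i) (F j) := by
    intro i j hij
    have h1 : F j ⊆ (st (i + 1)).1.1 := (hE1 _ _).trans (hanti hij)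
    rw [ss] at h1
    exact disjoint_sdiff_right.mono_right h1
  have hm : ∀ k (S T : Set ℕ), Disjoint S T →
      μ k (⋃ i ∈ S ∪ T, F i) = μ k (⋃ i ∈ S, F i) + μ k (⋃ i ∈ T, F i) := by
    intro k S T h
    rw [biUnion_union, ha]
    simp only [disjoint_iUnion_left, disjoint_iUnion_right]
    intro i hi j hj
    rcases lt_trichotomy i j with h1 | h1 | h1
    · exact (hdis i j h1).symm
    · exact absurd (h1 ▸ hi) (disjoint_left.1 h hj)
    · exact hdis j i h1
  have hz : ∀ k, μ k ∅ = 0 := fun k => by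
    have := ha k ∅ ∅ (disjoint_empty _)
    simp only [union_self] at this
    linarith
  have hlow : ∀ n : ℕ, ∀ D ⊆ Iio n, ∀ k, |μ k (⋃ i ∈ D, F i)| ≤ (st n).2 - n := by
    intro n
    induction n with
    | zero =>
      intro D hD k
      have : D = ∅ := eq_empty_of_subset_empty (by simpa using hD)
      simp [this, hz, s0]
    | succ n ih =>
      intro D hD k
      have h1 : |μ k (⋃ i ∈ D \ Iio n, F i)| ≤ p (F n) := by
        by_cases h : n ∈ D
        · have : D \ Iio n = {n} := by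
            ext i
            have := @hD i
            simp only [mem_diff, mem_Iio, mem_singleton_iff] at this ⊢
            constructor
            · intro h2
              have := this h2.1
              omega
            · rintro rfl
              exact ⟨h, lt_irrefl _⟩
          simpa [this] using hp (F n) k
        · have : D \ Iio n = ∅ := by
            refine eq_empty_of_forall_notMem fun i hi => h ?_
            have h3 : i < n + 1 := hD hi.1
            have h4 : ¬ i < n := hi.2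
            have : i = n := by omega
            exact this ▸ hi.1
          simp [this, hz, p0]
      have h2 := ih (D ∩ Iio n) inter_subset_right k
      rw [← inter_union_diff D (Iio n), hm k (D ∩ Iio n) (D \ Iio n) disjoint_inf_sdiff, ss]
      refine (abs_add_le _ _).trans ?_
      push_cast
      linarith
  have step2 : ∀ N : {N : Set ℕ // N.Infinite}, ∃ j ∈ N.1, ∃ N' ⊆ N.1 ∩ Ioi j, N'.Infinite ∧
      ∀ D ⊆ N', |μ (kk (st j).1 (st j).2) (⋃ i ∈ D, F i)| ≤ 1 := by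
    rintro ⟨N, hN⟩
    obtain ⟨j, hj⟩ := hN.nonempty
    obtain ⟨C, hC⟩ := hb (kk (st j).1 (st j).2)
    refine ⟨j, hj, thin (fun D => μ (kk (st j).1 (st j).2) (⋃ i ∈ D, F i)) (hm _) (fun S => hC _)
      ((hN.diff (finite_Iic j)).mono fun i hi => ⟨hi.1, not_le.1 (mem_Iic.not.1 hi.2)⟩)⟩
  choose J hJ1 NN hJ2 hJ3 hJ4 using step2
  obtain ⟨sq, qs⟩ : ∃ sq : ℕ → {N : Set ℕ // N.Infinite}, ∀ l, sq (l + 1) = ⟨NN (sq l), hJ3 _⟩ :=
    ⟨fun l => Nat.rec ⟨univ, infinite_univ⟩ (fun _ s => ⟨NN s, hJ3 _⟩) l, fun _ => rfl⟩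
  have qa : Antitone fun l => (sq l).1 := antitone_nat_of_succ_le fun l => by
    rw [qs]
    exact fun i hi => (hJ2 _ hi).1
  have qm : StrictMono fun l => J (sq l) := strictMono_nat_of_lt_succ fun l => by
    have := hJ1 (sq (l + 1))
    rw [qs] at this
    rw [qs]
    exact (hJ2 _ this).2
  obtain ⟨l, hl⟩ := exists_nat_gt (p (⋃ i ∈ range (fun l => J (sq l)), F i) + 1)
  have e1 : range (fun l => J (sq l)) = (range (fun l => J (sq l)) ∩ Iio (J (sq l)) ∪ {J (sq l)}) ∪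
      range (fun l => J (sq l)) ∩ Ioi (J (sq l)) := by
    ext i
    simp only [mem_union, mem_inter_iff, mem_Iio, mem_Ioi, mem_singleton_iff]
    constructor
    · intro h
      rcases lt_trichotomy i (J (sq l)) with h1 | h1 | h1
      · exact Or.inl (Or.inl ⟨h, h1⟩)
      · exact Or.inl (Or.inr h1)
      · exact Or.inr ⟨h, h1⟩
    · rintro ((h | rfl) | h)
      · exact h.1
      · exact ⟨l, rfl⟩
      · exact h.1
  have h1 := hp (⋃ i ∈ range (fun l => J (sq l)), F i) (kk (st (J (sq l))).1 (st (J (sq l))).2)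
  generalize p (⋃ i ∈ range (fun l => J (sq l)), F i) = q at h1 hl
  rw [e1, hm, hm, biUnion_singleton] at h1
  · have h2 := hlow (J (sq l)) (range (fun l => J (sq l)) ∩ Iio (J (sq l))) inter_subset_right
      (kk (st (J (sq l))).1 (st (J (sq l))).2)
    have h3 := hJ4 (sq l) (range (fun l => J (sq l)) ∩ Ioi (J (sq l))) (by
      rintro _ ⟨⟨i, rfl⟩, hi⟩
      have h4 : l + 1 ≤ i := qm.lt_iff_lt.1 hi
      have h5 := qa h4 (hJ1 (sq i))
      simp only [qs] at h5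
      exact h5)
    have h4 := hE2 (st (J (sq l))).1 (st (J (sq l))).2
    have h5 : (l : ℝ) ≤ J (sq l) := by exact_mod_cast qm.le_apply
    change _ < |μ _ (F _)| at h4
    rw [abs_le] at h1 h2 h3
    rcases lt_abs.1 h4 with h6 | h6 <;> linarith [h1.1, h1.2, h2.1, h2.2, h3.1, h3.2]
  · exact disjoint_singleton_right.2 fun h => lt_irrefl _ (mem_Iio.1 h.2)
  · refine disjoint_left.2 ?_
    rintro i (h | rfl) h2
    · exact lt_asymm (mem_Iio.1 h.2) (mem_Ioi.1 h2.2)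
    · exact lt_irrefl _ (mem_Ioi.1 h2.2)

end Pool.Agent.H.MP_07734d_lc
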