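import Pool.Agent.H.MP_07734d_lc.A

namespace Pool.Agent.H.MP_07734d_lc

open Set Filter Topology

def col (A : Set ℕ) : Set ℕ := {p | {x | x ∈ A ∧ x.unpair.1 = p}.Infinite}

open Classical in
noncomputable def phi (n : ℕ) (A : Set ℕ) : ℝ :=
  (((Finset.range n).filter fun i => Nat.pair n i ∈ col A).card : ℝ) / n

def Id : Set (Set ℕ) := {A | Tendsto (fun n => phi n A) atTop (𝓝 0)}

theorem col_mono {A B : Set ℕ} (h : A ⊆ B) : col A ⊆ col B :=
  fun _ hp => Infinite.mono (fun _ hx => ⟨h hx.1, hx.2⟩) hp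

theorem col_union (A B : Set ℕ) : col (A ∪ B) ⊆ col A ∪ col B := by
  intro p hp
  refine infinite_union.1 (Infinite.mono (fun x hx => ?_) hp)
  exact hx.1.imp (fun h => ⟨h, hx.2⟩) fun h => ⟨h, hx.2⟩

theorem phi_nonneg (n : ℕ) (A : Set ℕ) : 0 ≤ phi n A := by
  unfold phi
  positivity

open Classical in
theorem phi_le {n : ℕ} {A B : Set ℕ} (s : Finset ℕ)
    (h : ∀ i, i < n → Nat.pair n i ∈ col A → Nat.pair n i ∈ col B ∨ i ∈ s) :
    phi n A ≤ phi n B + (s.card : ℝ) / n := by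
  unfold phi
  rw [← add_div]
  refine div_le_div_of_nonneg_right ?_ (Nat.cast_nonneg n)
  have : ((Finset.range n).filter fun i => Nat.pair n i ∈ col A) ⊆
      ((Finset.range n).filter fun i => Nat.pair n i ∈ col B) ∪ s := by
    intro i hi
    simp only [Finset.mem_filter, Finset.mem_union, Finset.mem_range] at hi ⊢
    exact (h i hi.1 hi.2).imp_left fun h1 => ⟨hi.1, h1⟩
  exact_mod_cast (Finset.card_le_card this).trans (Finset.card_union_le _ _)

theorem Id_mono {A B : Set ℕ} (h : A ⊆ B) (hB : B ∈ Id) : A ∈ Id :=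
  squeeze_zero (fun n => phi_nonneg n A)
    (fun n => by simpa using phi_le (n := n) ∅ fun _ _ h1 => Or.inl (col_mono h h1)) hB

open Classical in
theorem Id_union {A B : Set ℕ} (hA : A ∈ Id) (hB : B ∈ Id) : A ∪ B ∈ Id := by
  have := Tendsto.add hA hB
  rw [add_zero] at this
  refine squeeze_zero (fun n => phi_nonneg n _) (fun n => ?_) this
  exact phi_le _ fun i hi h => (col_union A B h).imp_right fun h1 =>
    Finset.mem_filter.2 ⟨Finset.mem_range.2 hi, h1⟩

theorem Id_of {A : Set ℕ} {m : ℕ} (h : ∀ n, m ≤ n → ∀ i, Nat.pair n i ∉ col A) : A ∈ Id := by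
  refine tendsto_const_nhds.congr' ?_
  filter_upwards [eventually_ge_atTop m] with n hn
  simp [phi, h n hn]

theorem Id_fin {A : Set ℕ} (h : (col A).Finite) : A ∈ Id := by
  obtain ⟨m, hm⟩ := h.bddAbove
  refine Id_of (m := m + 1) fun n hn i hi => ?_
  have := hm hi
  have := Nat.left_le_pair n i
  omega

theorem not_Id {A : Set ℕ} (h : ∀ m, ∃ n, m < n ∧ ∀ i, i < n → Nat.pair n i ∈ col A) :
    A ∉ Id := by
  classical
  intro hA
  obtain ⟨m, hm⟩ := eventually_atTop.1 (Tendsto.eventually hA (gt_mem_nhds one_pos))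
  obtain ⟨n, h1, h2⟩ := h m
  have h3 := hm n h1.le
  unfold phi at h3
  rw [Finset.filter_true_of_mem fun i hi => h2 i (Finset.mem_range.1 hi), Finset.card_range,
    div_self (by have : 0 < n := by omega
                 positivity)] at h3
  exact lt_irrefl _ h3

theorem low_mem (m : ℕ) : {x : ℕ | x.unpair.1.unpair.1 < m} ∈ Id := by
  refine Id_of (m := m) fun n hn i hi => ?_
  obtain ⟨x, h1, h2⟩ := Set.Infinite.nonempty hi
  simp only [mem_setOf_eq, h2, Nat.unpair_pair] at h1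
  omega

theorem unif (μ : ℕ → Set ℕ → ℝ)
    (ha : ∀ k, ∀ S ∈ Id, ∀ T ∈ Id, Disjoint S T → μ k (S ∪ T) = μ k S + μ k T)
    (hb : ∀ k, ∃ C, ∀ S ∈ Id, |μ k S| ≤ C) (hp : ∀ S ∈ Id, ∃ C, ∀ k, |μ k S| ≤ C) :
    ∃ C, ∀ k, ∀ S ∈ Id, |μ k S| ≤ C := by
  classical
  have hq : ∀ A ∈ Id, ∃ C, ∀ k, ∀ S ⊆ A, |μ k S| ≤ C := by
    intro A hA
    have hm : ∀ S, S ∩ A ∈ Id := fun S => Id_mono inter_subset_right hA
    obtain ⟨C, hC⟩ := nik (fun k S => μ k (S ∩ A)) (fun k S T h => by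
      simp only [union_inter_distrib_right]
      exact ha k _ (hm S) _ (hm T) (h.mono inter_subset_left inter_subset_left))
      (fun k => (hb k).imp fun C hC S => hC _ (hm S)) (fun S => hp _ (hm S))
    exact ⟨C, fun k S hS => by simpa [inter_eq_left.2 hS] using hC k S⟩
  have hsp : ∀ k, ∀ T ∈ Id, ∀ S, μ k T = μ k (T ∩ S) + μ k (T \ S) := by
    intro k T hT S
    rw [← ha k (T ∩ S) (Id_mono inter_subset_left hT) (T \ S) (Id_mono diff_subset hT)
      disjoint_inf_sdiff, inter_union_diff]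
  have h0 : (∅ : Set ℕ) ∈ Id := Id_mono (empty_subset _) (low_mem 0)
  by_contra hn
  have step : ∀ (j : ℕ) (s : ℕ × {U // U ∈ Id}), ∃ (s' : ℕ × {U // U ∈ Id}) (B : Set ℕ) (k r : ℕ),
      s.1 < s'.1 ∧ s.2.1 ⊆ s'.2.1 ∧ B ⊆ s'.2.1 ∧ (j : ℝ) < |μ k B| ∧
      (∀ n, s'.1 ≤ n → phi n s'.2.1 ≤ 1 / ((j : ℝ) + 1)) ∧
      ∀ x ∈ B, s.1 ≤ x.unpair.1.unpair.1 ∧
        (x.unpair.1.unpair.1 < s'.1 → x.unpair.1.unpair.2 % (j + 1) = r) := by
    rintro j ⟨m, U, hU⟩
    obtain ⟨M, hM⟩ := hq _ (low_mem m)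
    have h1 := not_exists.1 hn (M + ((j + 1) * j + j))
    push Not at h1
    obtain ⟨k, S0, hS0, h2⟩ := h1
    let S := S0 \ {x : ℕ | x.unpair.1.unpair.1 < m}
    have hS : S ∈ Id := Id_mono diff_subset hS0
    have h3 : ((j : ℝ) + 1) * j + j < |μ k S| := by
      rw [hsp k S0 hS0 {x : ℕ | x.unpair.1.unpair.1 < m}] at h2
      linarith [abs_add_le (μ k (S0 ∩ {x : ℕ | x.unpair.1.unpair.1 < m})) (μ k S),
        hM k _ (inter_subset_right (s := S0))]
    obtain ⟨m0, hm0⟩ := eventually_atTop.1 (Tendsto.eventually (Id_union hU hS)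
      (gt_mem_nhds (Nat.one_div_pos_of_nat (n := j))))
    let m' := max m0 (m + 1)
    suffices h : ∃ B ⊆ S, ∃ r, (j : ℝ) < |μ k B| ∧ ∀ x ∈ B,
        x.unpair.1.unpair.1 < m' → x.unpair.1.unpair.2 % (j + 1) = r by
      obtain ⟨B, b1, r, b2, b3⟩ := h
      exact ⟨(m', ⟨U ∪ S, Id_union hU hS⟩), B, k, r, Nat.lt_of_succ_le (le_max_right m0 (m + 1)),
        subset_union_left,
        b1.trans subset_union_right, b2, fun n hn => (hm0 n ((le_max_left _ _).trans hn)).le,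
        fun x hx => ⟨not_lt.1 (b1 hx).2, b3 x hx⟩⟩
    by_contra h4
    push Not at h4
    let L := {x : ℕ | x.unpair.1.unpair.1 < m'}
    have h5 : |μ k (S \ L)| ≤ j := by
      by_contra h6
      obtain ⟨x, h7, h8, -⟩ := h4 _ diff_subset 0 (not_le.1 h6)
      exact h7.2 h8
    let f : ℕ → Set ℕ := fun r => S ∩ L ∩ {x | x.unpair.1.unpair.2 % (j + 1) = r}
    have h6 : ∀ r, |μ k (f r)| ≤ j := by
      intro r
      by_contra h6
      obtain ⟨x, h7, -, h8⟩ := h4 (f r) (inter_subset_left.trans inter_subset_left) r (not_le.1 h6)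
      exact h8 h7.2
    have h7 := (add_biUnion (μ k) Id h0 (fun _ a _ b => Id_union a b) (ha k) f
      (Finset.range (j + 1))
      (fun r _ => Id_mono (inter_subset_left.trans inter_subset_left) hS)
      (fun r _ t _ hrt => disjoint_left.2 fun x a b => hrt (a.2.symm.trans b.2))).2
    have h8 : ⋃ i ∈ Finset.range (j + 1), f i = S ∩ L := by
      ext x
      simp only [mem_iUnion]
      exact ⟨fun ⟨_, _, h⟩ => h.1, fun h =>
        ⟨_, Finset.mem_range.2 (Nat.mod_lt _ (Nat.succ_pos j)), h, rfl⟩⟩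
    rw [h8] at h7
    have h9 : |μ k (S ∩ L)| ≤ (j + 1) * j := by
      rw [h7]
      refine (Finset.abs_sum_le_sum_abs _ _).trans ((Finset.sum_le_sum fun r _ => h6 r).trans ?_)
      simp
    rw [hsp k S hS L] at h3
    linarith [abs_add_le (μ k (S ∩ L)) (μ k (S \ L))]
  choose nx B kk r q1 q2 q3 q4 q5 q6 using step
  obtain ⟨st, ss⟩ : ∃ st : ℕ → ℕ × {U // U ∈ Id}, ∀ j, st (j + 1) = nx j (st j) :=
    ⟨fun j => Nat.rec (0, ⟨∅, h0⟩) nx j, fun _ => rfl⟩
  have m1 : StrictMono fun j => (st j).1 := strictMono_nat_of_lt_succ fun j => by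
    rw [ss]
    exact q1 _ _
  have m2 : Monotone fun j => (st j).2.1 := monotone_nat_of_le_succ fun j => by
    rw [ss]
    exact q2 _ _
  have hA : (⋃ j, B j (st j)) ∈ Id := by
    refine Metric.tendsto_atTop.2 fun ε hε => ?_
    obtain ⟨J, hJ⟩ := exists_nat_one_div_lt (show 0 < ε / 3 by positivity)
    refine ⟨max (st (J + 1)).1 (J + 1), fun n hn => ?_⟩
    obtain ⟨hn1, hn2⟩ := max_le_iff.1 hn
    have e1 : ∃ j, n < (st (J + 1 + j + 1)).1 :=
      ⟨n, lt_of_lt_of_le (by omega) (m1.le_apply (x := J + 1 + n + 1))⟩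
    obtain ⟨j, j1, j2, j3⟩ : ∃ j, J ≤ j ∧ (st (j + 1)).1 ≤ n ∧ n < (st (j + 1 + 1)).1 := by
      refine ⟨J + Nat.find e1, by omega, ?_, ?_⟩
      · rcases h : Nat.find e1 with _ | t
        · exact hn1
        · have := Nat.find_min e1 (show t < Nat.find e1 by omega)
          rw [show J + (t + 1) + 1 = J + 1 + t + 1 by omega]
          omega
      · have := Nat.find_spec e1
        rwa [show J + 1 + Nat.find e1 + 1 = J + Nat.find e1 + 1 + 1 by omega] at this
    have c1 := phi_le (n := n) (A := ⋃ j, B j (st j)) (B := (st (j + 1)).2.1)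
      ((Finset.range n).filter fun i => i % (j + 1 + 1) = r (j + 1) (st (j + 1))) (by
        intro i hi h
        rw [or_iff_not_imp_right]
        intro h2
        refine Infinite.mono (fun x hx => ⟨?_, hx.2⟩) h
        obtain ⟨t, ht⟩ := mem_iUnion.1 hx.1
        have h3 := q6 t _ x ht
        rw [hx.2, Nat.unpair_pair, ← ss] at h3
        rcases lt_trichotomy t (j + 1) with h4 | h4 | h4
        · have := q3 t _ ht
          rw [← ss] at this
          exact m2 (show t + 1 ≤ j + 1 from h4) this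
        · subst h4
          exact absurd (Finset.mem_filter.2 ⟨Finset.mem_range.2 hi, h3.2 j3⟩) h2
        · have := m1.monotone (show j + 1 + 1 ≤ t from h4)
          simp only at this h3
          omega)
    have c2 : ((Finset.range n).filter fun i =>
        i % (j + 1 + 1) = r (j + 1) (st (j + 1))).card ≤ n / (j + 1 + 1) + 1 := by
      rw [← Finset.card_range (n / (j + 1 + 1) + 1)]
      refine Finset.card_le_card_of_injOn (fun i => i / (j + 1 + 1)) (fun i hi => ?_) ?_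
      · have := Finset.mem_range.1 (Finset.mem_filter.1 hi).1
        exact Finset.mem_coe.2 (Finset.mem_range.2 (Nat.lt_succ_of_le (Nat.div_le_div_right this.le)))
      · intro a h1 b h2 h3
        rw [← Nat.div_add_mod a (j + 1 + 1), ← Nat.div_add_mod b (j + 1 + 1),
          (Finset.mem_filter.1 h1).2, (Finset.mem_filter.1 h2).2]
        simp only at h3
        rw [h3]
    have c3 := q5 j (st j) n (by rw [← ss]; exact j2)
    rw [← ss] at c3
    have hn0 : (0 : ℝ) < n := by exact_mod_cast (show 0 < n by omega)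
    have c4 : (((Finset.range n).filter fun i =>
        i % (j + 1 + 1) = r (j + 1) (st (j + 1))).card : ℝ) / n ≤ 1 / ((j : ℝ) + 1 + 1) + 1 / n := by
      have h1 : (((Finset.range n).filter fun i =>
        i % (j + 1 + 1) = r (j + 1) (st (j + 1))).card : ℝ) ≤ n / ((j : ℝ) + 1 + 1) + 1 := by
        have h2 : ((n / (j + 1 + 1) : ℕ) : ℝ) ≤ n / ((j + 1 + 1 : ℕ) : ℝ) := Nat.cast_div_le
        push_cast at h2
        exact le_trans (by exact_mod_cast c2) (add_le_add_left h2 1)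
      refine (div_le_div_of_nonneg_right h1 hn0.le).trans (le_of_eq ?_)
      field_simp
    have d0 : (J : ℝ) ≤ j := by exact_mod_cast j1
    have d1 : 1 / ((j : ℝ) + 1) ≤ 1 / ((J : ℝ) + 1) :=
      one_div_le_one_div_of_le (by positivity) (by linarith)
    have d2 : 1 / ((j : ℝ) + 1 + 1) ≤ 1 / ((J : ℝ) + 1) :=
      one_div_le_one_div_of_le (by positivity) (by linarith)
    have d3 : 1 / (n : ℝ) ≤ 1 / ((J : ℝ) + 1) :=
      one_div_le_one_div_of_le (by positivity) (by exact_mod_cast hn2)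
    rw [Real.dist_eq, sub_zero, abs_of_nonneg (phi_nonneg _ _)]
    linarith
  obtain ⟨C, hC⟩ := hq _ hA
  obtain ⟨j, hj⟩ := exists_nat_gt C
  linarith [hC (kk j (st j)) _ (subset_iUnion (fun j => B j (st j)) j), q4 j (st j)]

def Cond (s : ℕ × (ℕ → Bool) × Set ℕ) : Set (ℕ → Bool) :=
  {x | (∀ y, y < s.1 → x y = s.2.1 y) ∧ ∀ y, s.1 ≤ y → y.unpair.1 ∈ s.2.2 → x y = true}

theorem cond_closed (s : ℕ × (ℕ → Bool) × Set ℕ) : IsClosed (Cond s) := by
  unfold Cond
  simp only [setOf_and, setOf_forall]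
  exact (isClosed_iInter fun y => isClosed_iInter fun _ =>
    isClosed_eq (continuous_apply y) continuous_const).inter
    (isClosed_iInter fun y => isClosed_iInter fun _ => isClosed_iInter fun _ =>
      isClosed_eq (continuous_apply y) continuous_const)

theorem cond_ne (s : ℕ × (ℕ → Bool) × Set ℕ) : (Cond s).Nonempty :=
  ⟨fun y => if y < s.1 then s.2.1 y else true, fun _ h => if_pos h, fun _ h _ => if_neg (not_lt.2 h)⟩

theorem cond_ext {s : ℕ × (ℕ → Bool) × Set ℕ} {x : ℕ → Bool} (hx : x ∈ Cond s) {K : ℕ}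
    {R : Set ℕ} (hK : s.1 ≤ K) (hR : s.2.2 ⊆ R) : Cond (K, x, R) ⊆ Cond s := by
  intro z hz
  refine ⟨fun y hy => (hz.1 y (hy.trans_le hK)).trans (hx.1 y hy), fun y hy h => ?_⟩
  rcases lt_or_ge y K with h1 | h1
  · exact (hz.1 y h1).trans (hx.2 y hy h)
  · exact hz.2 y h1 (hR h)

theorem chain {σ : Type} (P : σ → ℕ × (ℕ → Bool) × Set ℕ) (Q : ℕ → σ → σ → Prop) (s0 : σ)
    (step : ∀ m s, ∃ s', Cond (P s') ⊆ Cond (P s) ∧ Q m s s') :
    ∃ sq : ℕ → σ, sq 0 = s0 ∧ (∀ m, Q m (sq m) (sq (m + 1))) ∧ ∃ x, ∀ m, x ∈ Cond (P (sq m)) := by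
  choose nx h1 h2 using step
  refine ⟨fun m => Nat.rec s0 nx m, rfl, fun m => h2 _ _, ?_⟩
  obtain ⟨x, hx⟩ := IsCompact.nonempty_iInter_of_sequence_nonempty_isCompact_isClosed
    (fun m => Cond (P (Nat.rec s0 nx m))) (fun m => h1 _ _) (fun _ => cond_ne _)
    (cond_closed _).isCompact (fun _ => cond_closed _)
  exact ⟨x, mem_iInter.1 hx⟩

theorem lev1 {C : ℕ → Set (ℕ → Bool)} (hC : ∀ m, IsClosed (C m))
    (hI : ∀ x : ℕ → Bool, {y | x y = false} ∈ Id → ∃ m, x ∈ C m) {T : Set ℕ} (hT : T.Finite)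
    (s0 : {s : ℕ × (ℕ → Bool) × Set ℕ // s.2.2.Finite ∧ Disjoint s.2.2 T}) :
    ∃ s : {s : ℕ × (ℕ → Bool) × Set ℕ // s.2.2.Finite ∧ Disjoint s.2.2 T},
      Cond s.1 ⊆ Cond s0.1 ∧ ∃ m, Cond s.1 ⊆ C m := by
  by_contra hn
  push Not at hn
  obtain ⟨sq, -, h1, x, hx⟩ := chain
    (σ := {s : {s : ℕ × (ℕ → Bool) × Set ℕ // s.2.2.Finite ∧ Disjoint s.2.2 T} //
      Cond s.1 ⊆ Cond s0.1}) (fun s => s.1.1)
    (fun m _ s' => Disjoint (Cond s'.1.1) (C m) ∧ (m ∉ T → m ∈ s'.1.1.2.2)) ⟨s0, subset_rfl⟩ (by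
      rintro m ⟨s, hs⟩
      obtain ⟨x, x1, x2⟩ := not_subset.1 (hn s hs m)
      obtain ⟨I, u, u1, u2⟩ := isOpen_pi_iff.1 (hC m).isOpen_compl x x2
      have e := cond_ext x1 (K := max s.1.1 (I.sup id + 1)) (R := s.1.2.2 ∪ ({m} \ T))
        (le_max_left _ _) subset_union_left
      refine ⟨⟨⟨_, s.2.1.union ((finite_singleton m).subset diff_subset),
        disjoint_union_left.2 ⟨s.2.2, disjoint_sdiff_left⟩⟩, e.trans hs⟩, e,
        disjoint_left.2 fun z hz => u2 fun y hy => ?_, fun h => Or.inr ⟨rfl, h⟩⟩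
      rw [hz.1 y (lt_of_lt_of_le (Nat.lt_succ_of_le (Finset.le_sup (f := id) hy))
        (le_max_right _ _))]
      exact (u1 y hy).2)
  obtain ⟨m, hm⟩ := hI x (Id_fin (hT.subset fun p hp => by
    by_contra h
    refine hp ((finite_Iio (sq (p + 1)).1.1.1).subset fun y hy => ?_)
    by_contra h2
    have := (hx (p + 1)).2 y (not_lt.1 h2) (hy.2 ▸ (h1 p).2 h)
    rw [hy.1] at this
    cases this))
  exact disjoint_left.1 (h1 m).1 (hx (m + 1)) hm

theorem lev2 {C : ℕ → ℕ → Set (ℕ → Bool)} (hC : ∀ k m, IsClosed (C k m))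
    (hI : {x : ℕ → Bool | {y | x y = false} ∈ Id} = ⋂ k, ⋃ m, C k m) : False := by
  classical
  have hI2 : ∀ k, ∀ x : ℕ → Bool, {y | x y = false} ∈ Id → ∃ m, x ∈ C k m := fun k x hx =>
    mem_iUnion.1 (mem_iInter.1 (hI.subset hx) k)
  obtain ⟨sq, -, h1, x, hx⟩ := chain
    (σ := {s : (ℕ × (ℕ → Bool) × Set ℕ) × Set ℕ //
      s.2.Finite ∧ s.1.2.2.Finite ∧ Disjoint s.1.2.2 s.2}) (fun s => s.1.1)
    (fun k s s' => (∃ m, Cond s'.1.1 ⊆ C k m) ∧ s.1.2 ⊆ s'.1.2 ∧
      (∃ n, k < n ∧ ∀ i, i < n → Nat.pair n i ∈ s'.1.2) ∧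
      ∀ p ∈ s'.1.2, ∀ z ∈ Cond s'.1.1, ∃ y, k ≤ y ∧ z y = false ∧ y.unpair.1 = p)
    ⟨((0, fun _ => true, ∅), ∅), finite_empty, finite_empty, disjoint_empty _⟩ (by
      rintro k ⟨⟨s, T⟩, hT, hs⟩
      obtain ⟨⟨⟨K, a, R⟩, r1, r2⟩, t1, m, t2⟩ := lev1 (hC k) (hI2 k) hT ⟨s, hs⟩
      obtain ⟨b, hb⟩ := r1.bddAbove
      let n := max b k + 1
      let T' := T ∪ (fun i => Nat.pair n i) '' Iio n
      have hT' : T'.Finite := hT.union ((finite_Iio n).image _)
      have hd : Disjoint R T' := by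
        refine disjoint_union_right.2 ⟨r2, disjoint_left.2 ?_⟩
        rintro _ hp ⟨i, -, rfl⟩
        have h1 : Nat.pair n i ≤ b := hb hp
        have h2 := Nat.left_le_pair n i
        have h3 := le_max_left b k
        omega
      obtain ⟨K', hK'⟩ := (hT'.image fun p => Nat.pair p (K + k)).bddAbove
      let a' : ℕ → Bool := fun y => if y < K then a y else decide (y.unpair.1 ∉ T')
      have ha' : a' ∈ Cond (K, a, R) := ⟨fun y hy => if_pos hy, fun y hy h => by
        simp only [a', if_neg (not_lt.2 hy)]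
        exact decide_eq_true (disjoint_left.1 hd h)⟩
      have e := cond_ext ha' (K := max K (K' + 1)) (R := R) (le_max_left _ _) subset_rfl
      refine ⟨⟨((_, a', R), T'), hT', r1, hd⟩, e.trans t1, ⟨m, e.trans t2⟩, subset_union_left,
        ⟨n, Nat.lt_succ_of_le (le_max_right _ _), fun i hi => Or.inr ⟨i, hi, rfl⟩⟩,
        fun p hp z hz => ⟨Nat.pair p (K + k), ?_, ?_, by simp⟩⟩
      · exact le_trans (by omega) (Nat.right_le_pair _ _)
      · rw [hz.1 _ (lt_of_lt_of_le (Nat.lt_succ_of_le (hK' ⟨p, hp, rfl⟩)) (le_max_right _ _))]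
        have := Nat.right_le_pair p (K + k)
        simp only [a', if_neg (show ¬ Nat.pair p (K + k) < K by omega), Nat.unpair_pair]
        exact decide_eq_false (not_not.2 hp))
  have hm : Monotone fun k => (sq k).1.2 := monotone_nat_of_le_succ fun k => (h1 k).2.1
  have hx2 : x ∈ ⋂ k, ⋃ m, C k m := mem_iInter.2 fun k =>
    mem_iUnion.2 ((h1 k).1.imp fun m h => h (hx _))
  refine not_Id (fun k => ?_) (hI.superset hx2)
  obtain ⟨n, n1, n2⟩ := (h1 k).2.2.1
  refine ⟨n, n1, fun i hi => infinite_of_forall_exists_gt fun l => ?_⟩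
  obtain ⟨y, y1, y2, y3⟩ := (h1 (k + l + 1)).2.2.2 _
    (hm (show k + 1 ≤ k + l + 1 + 1 by omega) (n2 i hi)) x (hx _)
  exact ⟨y, ⟨y2, y3⟩, by omega⟩

theorem meas : MeasurableSet {x : ℕ → Bool | {y | x y = false} ∈ Id} := by
  classical
  refine measurableSet_tendsto (𝓝 0) fun n => ?_
  unfold phi
  simp only [Finset.card_filter, Nat.cast_sum]
  refine (Finset.measurable_sum _ fun i _ => ?_).div_const _
  refine (measurable_from_top (f := fun t : ℕ => (t : ℝ))).comp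
    (Measurable.ite ?_ measurable_const measurable_const)
  have : {x : ℕ → Bool | Nat.pair n i ∈ col {y | x y = false}} =
      ⋂ l, ⋃ y, ⋃ (_ : l < y ∧ y.unpair.1 = Nat.pair n i), {x | x y = false} := by
    ext x
    simp only [col, mem_setOf_eq, mem_iInter, mem_iUnion]
    constructor
    · intro h l
      obtain ⟨y, y1, y2⟩ := h.exists_gt l
      exact ⟨y, ⟨y2, y1.2⟩, y1.1⟩
    · intro h
      refine infinite_of_forall_exists_gt fun l => ?_
      obtain ⟨y, y1, y2⟩ := h l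
      exact ⟨y, ⟨y2, y1.2⟩, y1.1⟩
  rw [this]
  exact MeasurableSet.iInter fun l => MeasurableSet.iUnion fun y => MeasurableSet.iUnion fun _ =>
    measurableSet_eq_fun (measurable_pi_apply y) measurable_const

end Pool.Agent.H.MP_07734d_lc
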